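import Pool.Agent.Helper52.DE.Bricks

/-!
# Endomorphism algebras when all rational points lie in the `τ`-tilting fan, in any rank

Let `k` be an algebraically closed field and `A` a finite-dimensional `k`-algebra with simple
modules `S 0, ..., S (n - 1)` such that every nonzero rational vector lies in a cone of the
`τ`-tilting fan. Then the endomorphism algebras of the `τ`-rigid modules and of the modules of
projective dimension at most one have the largest possible order of growth:

* there is `c > 0` such that `dim End M ≥ c * (dim M) ^ 2` for all `τ`-rigid modules `M`, and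
  `dim End M - dim Ext¹ (M, M) ≥ c * (dim M) ^ 2` for all `M` of projective dimension at most one;
* only finitely many bricks are `τ`-rigid or have projective dimension at most one.

So Demonet's conjecture holds for every algebra with infinitely many `τ`-rigid bricks, or with
infinitely many bricks of projective dimension at most one, or with a sequence of nonzero modules
`M` (`τ`-rigid, or of projective dimension at most one) for which `dim End M / (dim M) ^ 2`
tends to zero.

Here `ed k X X.coker` is the dimension of the cokernel of `Hom (P0, M) → Hom (P1, M)`, that is of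
`Ext¹ (M, M)` if `0 → P1 → P0 → M → 0` is exact.
-/

universe u

namespace Pool.Agent.Results.MP_7dd0aa_al.EndomorphismBound

open Dem Pool.Agent.Helper52.DE

theorem result (k A : Type u) [Field k] [IsAlgClosed k] [Ring A] [Algebra k A]
    [Module.Finite k A] (n : ℕ) (S : Fin n → FDMod k A) (hS : CompleteSimples S)
    (hfan : ∀ v : Fin n → ℚ, v ≠ 0 → InFan S (fun l => (v l : ℝ))) :
    (∃ c : ℝ, 0 < c ∧
      (∀ X : Pres k A, X.Minimal → HomTauZero X X →
        c * (Module.finrank k X.coker : ℝ) ^ 2 ≤ hd k A X.coker X.coker) ∧
      (∀ X : Pres k A, Function.Injective X.f →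
        c * (Module.finrank k X.coker : ℝ) ^ 2 + ed k X X.coker ≤ hd k A X.coker X.coker)) ∧
    (∃ L : List (FDMod k A), ∀ X : Pres k A, IsBrick A X.coker →
      (X.Minimal ∧ HomTauZero X X) ∨ Function.Injective X.f → ∃ B ∈ L, Iso X.coker B) := by
  classical
  have h0 : IsTauRigidPair (k := k) (A := A) (p := 0) (q := 0) Fin.elim0 Fin.elim0 :=
    { minimal := fun i => i.elim0
      indec := fun i => i.elim0
      noniso := fun i => i.elim0
      rigid := fun i => i.elim0
      projQ := fun i => i.elim0
      indecQ := fun i => i.elim0
      nonisoQ := fun i => i.elim0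
      homzero := fun i => i.elim0 }
  have hfan' : ∀ v : Fin n → ℤ, InFan S (fun l => (v l : ℝ)) := by
    intro v
    by_cases hv : v = 0
    · subst hv
      exact ⟨0, 0, Fin.elim0, Fin.elim0, h0, fun _ => 0, fun _ => 0, fun _ => le_rfl,
        fun _ => le_rfl, fun l => by simp⟩
    · have h := hfan (fun l => (v l : ℚ)) (fun h => hv (by
        funext l
        have := congrFun h l
        simpa using this))
      have e : (fun l => (((v l : ℤ) : ℚ) : ℝ)) = fun l => ((v l : ℤ) : ℝ) := by
        funext l
        push_cast
        rfl
      rw [e] at h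
      exact h
  obtain ⟨c, hc0, hc⟩ := rigid_bound hS hfan'
  have hrig : ∀ X : Pres k A, HomTauZero X X → EZ X X.M := by
    intro X hX
    have h1 : hd k A X.M X.Tau = 0 := (hd_eq_zero_iff (k := k)).2 hX
    rw [hd_Tau, ed_eq_zero_iff (k := k)] at h1
    exact h1
  have h1 : ∀ X : Pres k A, HomTauZero X X →
      c * (Module.finrank k X.M : ℝ) ^ 2 + ed k X X.M ≤ hd k A X.M X.M := by
    intro X hX
    have h2 := hrig X hX
    rw [(ed_eq_zero_iff (k := k) X).2 h2]
    have h3 := hc X h2
    simpa using h3
  have h2 : ∀ X : Pres k A, Function.Injective X.f →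
      c * (Module.finrank k X.M : ℝ) ^ 2 + ed k X X.M ≤ hd k A X.M X.M := fun X hX =>
    of_min hS hfan' hc X fun Y hY => min_of_inj hS hfan' X hX Y hY
  refine ⟨⟨c, hc0, fun X _ hX => hc X (hrig X hX), h2⟩, ?_⟩
  obtain ⟨L, hL⟩ := finite_bricks hS hfan' hc0
  refine ⟨L, fun X hX hor => ?_⟩
  rcases hor with ⟨-, h⟩ | h
  · exact hL X hX (h1 X h)
  · exact hL X hX (h2 X h)

end Pool.Agent.Results.MP_7dd0aa_al.EndomorphismBound
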