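import Pool.Agent.Helper7.Dem.Tree

/-!
# Demonet's conjecture for all algebras of rank two

Let `k` be an algebraically closed field and `A` a finite-dimensional `k`-algebra with exactly two
simple modules `S 0`, `S 1` up to isomorphism. If `A` has infinitely many bricks, then some nonzero
rational vector `v` lies in no cone of the `τ`-tilting fan of `A`.

Modules are left modules (for right modules apply the theorem to the opposite algebra). The
definitions are in `Pool/Agent/Helper7/Dem/Defs.lean`.

Idea of the proof. Write `e(X, N) = dim Hom (X, N[1])` for a two-term complex `X` of projectives.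
If `X_u, X_v, X_w` are rigid with classes `u, v, w = u + v` then
`e(X_w, M_u) ≤ max (0, e(X_v, M_u) - 1)` and, by Auslander-Reiten duality,
`e(X_u, M_w) ≤ max (0, e(X_u, M_v) - 1)`. So if all rational rays are in the fan, the Stern-Brocot
subdivision of a quadrant stops after finitely many steps, and at each ray of the resulting finite
fan only one brick can occur.
-/

universe u

namespace Pool.Agent.Results.MP_7dd0aa_al.RankTwo

open Dem

theorem result (k A : Type u) [Field k] [IsAlgClosed k] [Ring A] [Algebra k A]
    [Module.Finite k A] (S : Fin 2 → FDMod k A) (hS : CompleteSimples S)
    (hinf : ¬ BrickFinite k A) :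
    ∃ v : Fin 2 → ℚ, v ≠ 0 ∧ ¬ InFan S (fun l => (v l : ℝ)) := by
  by_contra hcon
  push Not at hcon
  apply hinf
  refine rank_two hS fun v => ?_
  by_cases hv : v = 0
  · subst hv
    refine ⟨0, 0, Fin.elim0, Fin.elim0, ?_, Fin.elim0, Fin.elim0, fun i => i.elim0,
      fun i => i.elim0, fun l => ?_⟩
    · exact { minimal := fun i => i.elim0
              indec := fun i => i.elim0
              noniso := fun i => i.elim0
              rigid := fun i => i.elim0
              projQ := fun i => i.elim0
              indecQ := fun i => i.elim0
              nonisoQ := fun i => i.elim0
              homzero := fun i => i.elim0 }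
    · simp
  · have h1 := hcon (fun l => (v l : ℚ)) (by
      intro h
      apply hv
      funext l
      have := congrFun h l
      simpa using this)
    simpa using h1

end Pool.Agent.Results.MP_7dd0aa_al.RankTwo
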