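import Pool.Agent.Helper7.Dem.Plane

/-!
# Rational planes and the `τ`-tilting fan, in any rank

Let `k` be an algebraically closed field, `A` a finite-dimensional `k`-algebra with simple modules
`S 0, ..., S (n - 1)`, and `u, v` two vectors of `ℤ ^ n`. If every vector `a u + b v` with natural
numbers `a, b` lies in a cone of the `τ`-tilting fan, then finitely many cones of the fan cover all
`a u + b v` with real `a, b ≥ 0`.

So if some real vector of a rational two-dimensional cone (or plane) lies outside the fan, then a
rational ray lies outside the fan: Demonet's conclusion holds as soon as the complement of the fan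
contains a vector whose coordinates span a rational vector space of dimension at most two.
-/

universe u

namespace Pool.Agent.Results.MP_7dd0aa_al.RationalPlanes

open Dem

theorem result (k A : Type u) [Field k] [IsAlgClosed k] [Ring A] [Algebra k A]
    [Module.Finite k A] (n : ℕ) (S : Fin n → FDMod k A) (hS : CompleteSimples S)
    (u v : Fin n → ℤ)
    (hfan : ∀ a b : ℕ, InFan S (fun l => (a : ℝ) * (u l : ℝ) + (b : ℝ) * (v l : ℝ))) :
    ∃ L : List (TRPair k A), ∀ a b : ℝ, 0 ≤ a → 0 ≤ b →
      ∃ T ∈ L, T.Contains S (fun l => a * (u l : ℝ) + b * (v l : ℝ)) := by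
  refine plane hS u v fun a b => ?_
  have := hfan a b
  have e : (fun l => ((a * u l + b * v l : ℤ) : ℝ)) =
      fun l => (a : ℝ) * (u l : ℝ) + (b : ℝ) * (v l : ℝ) := by
    funext l
    push_cast
    rfl
  rw [e]
  exact this

end Pool.Agent.Results.MP_7dd0aa_al.RationalPlanes
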