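import Pool.Agent.Helper52.DW.Bridge

/-!
# Weights on the rays of the `τ`-tilting fan, in any rank

Let `k` be an algebraically closed field, `A` a finite-dimensional `k`-algebra with simple modules
`S 0, ..., S (n - 1)`, and `f` a real function on the generators (the `g`-vectors of the
indecomposable `τ`-rigid modules and the `-[Q]`, `Q` indecomposable projective) of the cones of the
`τ`-tilting fan such that

* `f` is bounded below by a positive constant and grows slower than every linear function;
* for any two adjacent maximal cones, generated by `σ ∪ {w}` and `σ ∪ {w'}`, with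
  `w + w' = ∑ a u • u` (`u ∈ σ`), the exchange inequality `∑ a u * f u ≤ f w + f w'` holds.

If every nonzero rational vector lies in a cone of the fan then finitely many cones of the fan
cover the whole real space; so `A` is brick-finite by the known equivalence. In other words,
Demonet's conclusion holds for every algebra with such a weight. The case `f = 1` is the case in
which all exchange relations satisfy `∑ a u ≤ 2`.
-/

universe u

namespace Pool.Agent.Results.MP_7dd0aa_al.Weights

open Dem Pool.Agent.Helper52.DW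

theorem result (k A : Type u) [Field k] [IsAlgClosed k] [Ring A] [Algebra k A]
    [Module.Finite k A] (n : ℕ) (S : Fin n → FDMod k A) (hS : CompleteSimples S)
    (f : (Fin n → ℤ) → ℝ) (ε : ℝ) (hε : 0 < ε)
    (hlow : ∀ T : TRPair k A, ∀ u ∈ rays T S, ε ≤ f u)
    (hup : ∀ δ : ℝ, 0 < δ → ∃ C : ℝ, ∀ T : TRPair k A, ∀ u ∈ rays T S,
      f u ≤ δ * ∑ l, |(u l : ℝ)| + C)
    (hex : ∀ T T' : TRPair k A, T.p + T.q = n → T'.p + T'.q = n →
      ∀ w ∈ rays T S, ∀ w' ∈ rays T' S, w ≠ w' → (rays T S).erase w = (rays T' S).erase w' →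
      ∀ a : (Fin n → ℤ) → ℤ, w + w' = ∑ u ∈ (rays T S).erase w, a u • u →
        ∑ u ∈ (rays T S).erase w, (a u : ℝ) * f u ≤ f w + f w')
    (hfan : ∀ v : Fin n → ℚ, v ≠ 0 → InFan S (fun l => (v l : ℝ))) :
    ∃ L : List (TRPair k A), ∀ v : Fin n → ℝ, ∃ T ∈ L, T.Contains S v := by
  classical
  have h0 : IsTauRigidPair (k := k) (A := A) (p := 0) (q := 0) Fin.elim0 Fin.elim0 :=
    { minimal := fun i => i.elim0
      indec := fun i => i.elim0
      noniso := fun i => i.elim0
      rigid := fun i => i.elim0
      projQ := fun i => i.elim0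
      indecQ := fun i => i.elim0
      nonisoQ := fun i => i.elim0
      homzero := fun i => i.elim0 }
  have hne : Nonempty (TRPair k A) := ⟨⟨0, 0, Fin.elim0, Fin.elim0, h0⟩⟩
  have hfan' : ∀ v : Fin n → ℤ, InFan S (fun l => (v l : ℝ)) := by
    intro v
    by_cases hv : v = 0
    · subst hv
      exact ⟨0, 0, Fin.elim0, Fin.elim0, h0, fun _ => 0, fun _ => 0, fun _ => le_rfl,
        fun _ => le_rfl, fun l => by simp⟩
    · have h := hfan (fun l => (v l : ℚ)) (fun h => hv (by
        funext l
        have := congrFun h l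
        simpa using this))
      have e : (fun l => (((v l : ℤ) : ℚ) : ℝ)) = fun l => ((v l : ℤ) : ℝ) := by
        funext l
        push_cast
        rfl
      rw [e] at h
      exact h
  have hmain := (fanOf hS hfan').main f hε
    (by
      rintro _ ⟨T, rfl⟩ u hu
      exact hlow T u hu)
    (fun δ hδ => by
      obtain ⟨C, hC⟩ := hup δ hδ
      refine ⟨C, ?_⟩
      rintro _ ⟨T, rfl⟩ u hu
      rw [nm_cast]
      exact hC T u hu)
    (by
      rintro _ ⟨T, rfl⟩ _ ⟨T', rfl⟩ hc hc' w hw w' hw' hne he a ha hat
      rw [card_rays hS] at hc hc'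
      have h1 := hex T T' hc hc' w hw w' hw' hne he a (by rw [← hat]; exact Fan.tot_eq a ha)
      have h2 : W f a = ∑ u ∈ (rays T S).erase w, (a u : ℝ) * f u := by
        unfold W
        rw [Finsupp.linearCombination_apply, Finsupp.sum_of_support_subset _ ha]
        · exact Finset.sum_congr rfl fun u _ => by rw [zsmul_eq_mul]
        · intro i _
          exact zero_smul _ _
      rw [h2]
      exact h1)
  obtain ⟨hfin, hreal⟩ := hmain
  choose! g hg using fun (t : Finset (Fin n → ℤ)) (ht : t ∈ (fanOf hS hfan').cones) =>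
    (show ∃ T : TRPair k A, rays T S = t from ht)
  refine ⟨hfin.toFinset.toList.map g, fun v => ?_⟩
  obtain ⟨t, ht, a, ha, hv⟩ := hreal v
  refine ⟨g t, List.mem_map.2 ⟨t, Finset.mem_toList.2 (hfin.mem_toFinset.2 ht), rfl⟩, ?_⟩
  have ht' := hg t ht
  refine ⟨fun i => a (Gv (g t).X (g t).Q S (Sum.inl i)), fun j => a (Gv (g t).X (g t).Q S (Sum.inr j)),
    fun i => ha _, fun j => ha _, ?_⟩
  refine cone_convert (c := fun s => a (Gv (g t).X (g t).Q S s)) fun l => ?_
  have h3 : ∑ u ∈ t, a u * (u l : ℝ) = ∑ u ∈ rays (g t) S, a u * (u l : ℝ) := by rw [ht']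
  rw [hv l, h3, sum_rays hS (g t)]

end Pool.Agent.Results.MP_7dd0aa_al.Weights
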